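import Pool.Agent.Helper4.BT.Defs2
import Pool.Agent.Helper7.BT.JJb

/-!
# BT-FE1b: potentials of the products of the first bubble with the smaller ones
-/

namespace Pool.Helper4.BT
open MeasureTheory Metric Set Laplacian InnerProductSpace

/-- potential of a bubble outside a ball -/
theorem FE1b_Uout : ∃ C : ℝ, 0 < C ∧ ∀ (μ ρ : ℝ) (z c x : E), 0 < μ → 0 < ρ → ‖x - c‖ ≤ 2 * ρ →
    (‖z - c‖ ≤ ρ / 4 ∨ 8 * ρ ≤ ‖z - c‖) →
    J 4 ((ball c ρ)ᶜ.indicator (U μ z)) x ≤ ENNReal.ofReal (C * (μ ^ 2 / ρ ^ 2)) ∧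
    J 5 ((ball c ρ)ᶜ.indicator (U μ z)) x ≤ ENNReal.ofReal (C * (μ ^ 2 / ρ ^ 3)) := by
  obtain ⟨C, hC, hJ⟩ := J_U
  refine ⟨13 * C, by positivity, fun μ ρ z c x hμ hρ hx hz => ?_⟩
  rcases hz with hz | hz
  · -- the bubble is inside
    have hle : ∀ y, (ball c ρ)ᶜ.indicator (U μ z) y ≤ 13 * (μ ^ 2 / ρ ^ 2) * U ρ c y := by
      intro y
      by_cases hy : y ∈ (ball c ρ)ᶜ
      · rw [indicator_of_mem hy]
        refine U_cmp hμ hρ hz ?_
        rw [mem_compl_iff, mem_ball, dist_eq_norm, not_lt] at hy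
        exact hy
      · rw [indicator_of_notMem hy]
        have := JJb_U_nonneg ρ c y
        positivity
    obtain ⟨h4, h5⟩ := hJ ρ c x hρ
    have hA : ρ ^ 2 ≤ A ρ c x := by unfold A; nlinarith [sq_nonneg ‖x - c‖]
    have hA0 := JJb_A_pos hρ c x
    have hs : ρ ≤ √(A ρ c x) := JJb_mu_le hρ c x
    have e4 : C * ρ ^ 2 / A ρ c x ≤ C := by
      rw [div_le_iff₀ hA0]
      exact mul_le_mul_of_nonneg_left hA hC.le
    have e5 : C * ρ ^ 2 / (A ρ c x * √(A ρ c x)) ≤ C / ρ := by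
      rw [div_le_div_iff₀ (by positivity) hρ, mul_assoc]
      refine mul_le_mul_of_nonneg_left ?_ hC.le
      exact mul_le_mul hA hs hρ.le hA0.le
    constructor
    · refine (J_mono hle x).trans ?_
      rw [J_const_mul _ (by positivity)]
      refine (mul_le_mul_right (h4.trans (ENNReal.ofReal_le_ofReal e4)) _).trans ?_
      rw [← ENNReal.ofReal_mul (by positivity)]
      exact ENNReal.ofReal_le_ofReal (by apply le_of_eq; ring)
    · refine (J_mono hle x).trans ?_
      rw [J_const_mul _ (by positivity)]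
      refine (mul_le_mul_right (h5.trans (ENNReal.ofReal_le_ofReal e5)) _).trans ?_
      rw [← ENNReal.ofReal_mul (by positivity)]
      exact ENNReal.ofReal_le_ofReal (by apply le_of_eq; field_simp)
  · -- the bubble is outside
    have hle : ∀ y, (ball c ρ)ᶜ.indicator (U μ z) y ≤ U μ z y := by
      intro y
      exact indicator_le_self' (fun _ _ => JJb_U_nonneg μ z _) y
    obtain ⟨h4, h5⟩ := hJ μ z x hμ
    have hxz : ρ ≤ ‖x - z‖ := by
      have : ‖z - c‖ ≤ ‖x - z‖ + ‖x - c‖ := by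
        have h : z - c = (x - c) - (x - z) := by abel
        rw [h]
        linarith [norm_sub_le (x - c) (x - z)]
      linarith
    have hA : ρ ^ 2 ≤ A μ z x := by
      unfold A
      nlinarith [sq_nonneg μ]
    have hA0 := JJb_A_pos hμ z x
    have hs : ρ ≤ √(A μ z x) := Real.le_sqrt_of_sq_le hA
    have e4 : C * μ ^ 2 / A μ z x ≤ 13 * C * (μ ^ 2 / ρ ^ 2) := by
      calc C * μ ^ 2 / A μ z x ≤ C * μ ^ 2 / ρ ^ 2 :=
            div_le_div_of_nonneg_left (by positivity) (by positivity) hA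
        _ ≤ 13 * C * (μ ^ 2 / ρ ^ 2) := by
            have : 0 ≤ C * (μ ^ 2 / ρ ^ 2) := by positivity
            rw [mul_div_assoc]
            linarith
    have e5 : C * μ ^ 2 / (A μ z x * √(A μ z x)) ≤ 13 * C * (μ ^ 2 / ρ ^ 3) := by
      calc C * μ ^ 2 / (A μ z x * √(A μ z x)) ≤ C * μ ^ 2 / ρ ^ 3 := by
            refine div_le_div_of_nonneg_left (by positivity) (by positivity) ?_
            calc ρ ^ 3 = ρ ^ 2 * ρ := by ring
              _ ≤ _ := mul_le_mul hA hs hρ.le hA0.le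
        _ ≤ 13 * C * (μ ^ 2 / ρ ^ 3) := by
            have : 0 ≤ C * (μ ^ 2 / ρ ^ 3) := by positivity
            rw [mul_div_assoc]
            linarith
    exact ⟨(J_mono hle x).trans (h4.trans (ENNReal.ofReal_le_ofReal e4)),
      (J_mono hle x).trans (h5.trans (ENNReal.ofReal_le_ofReal e5))⟩

/-- potential of a finite sum -/
theorem FE1b_J_sum {m : ℕ} (s : Finset ℕ) (f : ℕ → E → ℝ) (hf : ∀ l ∈ s, Measurable (f l)) (x : E) :
    J m (fun y => ∑ l ∈ s, f l y) x ≤ ∑ l ∈ s, J m (f l) x := by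
  classical
  induction s using Finset.induction_on with
  | empty => simp [J]
  | insert a s ha ih =>
    have h1 : J m (fun y => ∑ l ∈ insert a s, f l y) x =
        J m (fun y => f a y + ∑ l ∈ s, f l y) x := by
      congr 1
      ext y
      rw [Finset.sum_insert ha]
    rw [h1, Finset.sum_insert ha]
    refine (J_add_le _ _ ?_ x).trans ?_
    · exact Finset.measurable_sum _ fun l hl => hf l (Finset.mem_insert_of_mem hl)
    · exact add_le_add_right (ih fun l hl => hf l (Finset.mem_insert_of_mem hl)) _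

theorem FE1b_DD {μ0 : ℝ} (h : 0 < μ0) (z0 z1 : E) :
    0 < √(μ0 ^ 2 + ‖z0 - z1‖ ^ 2) ∧ √(A μ0 z0 z1) = √(μ0 ^ 2 + ‖z0 - z1‖ ^ 2) := by
  refine ⟨Real.sqrt_pos.mpr (by positivity), ?_⟩
  unfold A
  rw [norm_sub_rev]

/-- lower bound of `√A` and upper bound of the first bubble near the second one -/
theorem FE1b_U0 {μ0 : ℝ} (h : 0 < μ0) (z0 z1 y : E)
    (hy : ‖y - z1‖ ≤ √(μ0 ^ 2 + ‖z0 - z1‖ ^ 2) / 4) :
    3 / 4 * √(μ0 ^ 2 + ‖z0 - z1‖ ^ 2) ≤ √(A μ0 z0 y) ∧ U μ0 z0 y ≤ 4 * U μ0 z0 z1 := by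
  obtain ⟨hD, hA1⟩ := FE1b_DD h z0 z1
  have h1 := JJb_sqrtA_le (μ := μ0) z0 z1 y
  have h0 : ‖z1 - y‖ = ‖y - z1‖ := norm_sub_rev _ _
  rw [hA1, h0] at h1
  have h2 : 3 / 4 * √(μ0 ^ 2 + ‖z0 - z1‖ ^ 2) ≤ √(A μ0 z0 y) := by linarith
  refine ⟨h2, ?_⟩
  have h3 := Real.sq_sqrt (JJb_A_pos h z0 y).le
  have h4 := Real.sq_sqrt (JJb_A_pos h z0 z1).le
  rw [hA1] at h4
  have hAy := JJb_A_pos h z0 y
  have hAz := JJb_A_pos h z0 z1
  have h5 : 9 / 16 * A μ0 z0 z1 ≤ A μ0 z0 y := by
    rw [← h3, ← h4]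
    nlinarith
  unfold U
  rw [← mul_div_assoc, div_le_div_iff₀ (by positivity) (by positivity)]
  have h6 : (9 / 16 * A μ0 z0 z1) ^ 2 ≤ A μ0 z0 y ^ 2 := pow_le_pow_left₀ (by positivity) h5 2
  have h7 : A μ0 z0 z1 ^ 2 ≤ 4 * A μ0 z0 y ^ 2 := by nlinarith [sq_nonneg (A μ0 z0 z1)]
  have h8 := mul_le_mul_of_nonneg_left h7 (by positivity : (0 : ℝ) ≤ 24 * μ0 ^ 2)
  linarith

theorem fe1_b : ∀ (k : ℕ) (Λ R C3 : ℝ), ∃ C : ℝ, 0 < C ∧ ∀ τ : ℝ, 0 < τ → τ ≤ 1 / 64 →
    ∃ ω0 : ℝ, 0 < ω0 ∧ ∀ (ω : ℝ) (p : E) (u : E → ℝ) (lam : ℝ) (mu : ℕ → ℝ) (z : ℕ → E)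
      (sg : ℕ → ℝ) (ρ : ℝ), ω ≤ ω0 → Conf k Λ R C3 τ ω p u lam mu z sg → Rho1 k τ mu z ρ →
      ∀ x ∈ closedBall (z 1) (2 * ρ),
      J 4 ((SS R p (z 1) ρ).indicator (fun y =>
            U (mu 0) (z 0) y * ∑ l ∈ Finset.Ico 1 k, U (mu l) (z l) y)) x
        ≤ ENNReal.ofReal (C * τ * tt mu z) ∧
      J 5 ((SS R p (z 1) ρ).indicator (fun y =>
            U (mu 0) (z 0) y * ∑ l ∈ Finset.Ico 1 k, U (mu l) (z l) y)) x
        ≤ ENNReal.ofReal (C * τ * tt mu z / DD mu z) := by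
  intro k Λ R C3
  obtain ⟨C1, hC1, hout⟩ := FE1b_Uout
  obtain ⟨C2, hC2, hsq⟩ := J_U_sq
  obtain ⟨c, hc, hint⟩ := JJb_int_U_sq
  -- constant for one bubble
  set B : ℝ := 4 * C1 + 8 * C2 + 8 ^ 5 * c with hB
  have hB0 : 0 < B := by positivity
  refine ⟨(k + 1) * B, by positivity, fun τ hτ hτ1 => ⟨1, one_pos, ?_⟩⟩
  intro ω p u lam mu z sg ρ _ hcf hr x hx
  have hk := hcf.hk
  have hm0 : 0 < mu 0 := hcf.hmu 0 (by omega)
  have hm1 : 0 < mu 1 := hcf.hmu 1 (by omega)
  obtain ⟨hω0, hωτ⟩ := hcf.hω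
  have hρ := hr.pos
  set D : ℝ := DD mu z with hD
  set t : ℝ := tt mu z with ht
  have hDdef : D = √(mu 0 ^ 2 + ‖z 0 - z 1‖ ^ 2) := rfl
  obtain ⟨hD0, hA1⟩ := FE1b_DD hm0 (z 0) (z 1)
  rw [← hDdef] at hD0 hA1
  have hDsq : A (mu 0) (z 0) (z 1) = D ^ 2 := by
    rw [← hA1, Real.sq_sqrt (JJb_A_pos hm0 _ _).le]
  have htD : t = 24 * mu 0 ^ 2 / D ^ 4 := by
    rw [ht]
    unfold tt U
    rw [hDsq]
    ring
  have ht0 : 0 < t := by rw [htD]; positivity
  have hxn : ‖x - z 1‖ ≤ 2 * ρ := by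
    rw [mem_closedBall, dist_eq_norm] at hx
    exact hx
  have hρD : ρ ≤ D / 64 := by
    have := hr.le
    nlinarith
  -- one bubble
  have key : ∀ l ∈ Finset.Ico 1 k,
      J 4 ((SS R p (z 1) ρ).indicator (fun y => U (mu 0) (z 0) y * U (mu l) (z l) y)) x
        ≤ ENNReal.ofReal (B * τ * t) ∧
      J 5 ((SS R p (z 1) ρ).indicator (fun y => U (mu 0) (z 0) y * U (mu l) (z l) y)) x
        ≤ ENNReal.ofReal (B * τ * t / D) := by
    intro l hl
    rw [Finset.mem_Ico] at hl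
    have hml : 0 < mu l := hcf.hmu l hl.2
    have hml1 : mu l ≤ mu 1 := by
      rcases Nat.lt_or_ge 1 l with h | h
      · have h1 := hcf.hsep 1 l h hl.2
        have h2 : ω ≤ 1 := by linarith
        nlinarith
      · have : l = 1 := by omega
        rw [this]
    have hml0 : mu l ≤ τ * mu 0 := by
      have h1 := hcf.hsep 0 1 (by omega) (by omega)
      nlinarith
    have hgap : ‖z l - z 1‖ ≤ ρ / 4 ∨ 8 * ρ ≤ ‖z l - z 1‖ := by
      rcases Nat.lt_or_ge 1 l with h | h
      · exact hr.gap l (by omega) hl.2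
      · have : l = 1 := by omega
        left
        rw [this, sub_self, norm_zero]
        positivity
    obtain ⟨o4, o5⟩ := hout (mu l) ρ (z l) (z 1) x hml hρ hxn hgap
    obtain ⟨s4, s5⟩ := hsq (mu 0) (z 0) x hm0
    obtain ⟨hA0x, hU0x⟩ := FE1b_U0 hm0 (z 0) (z 1) x (by rw [← hDdef]; linarith)
    rw [← hDdef] at hA0x
    have hU0x' : U (mu 0) (z 0) x ≤ 4 * t := hU0x
    have hmul2 : mu l ^ 2 ≤ mu 1 ^ 2 := pow_le_pow_left₀ hml.le hml1 2
    have hmul0 : mu l ^ 2 ≤ τ ^ 2 * mu 0 ^ 2 := by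
      rw [← mul_pow]; exact pow_le_pow_left₀ hml.le hml0 2
    -- the majorant
    set fa : E → ℝ := fun y => 4 * t * (ball (z 1) ρ)ᶜ.indicator (U (mu l) (z l)) y with hfa
    set fb : E → ℝ := fun y => τ * U (mu 0) (z 0) y ^ 2 with hfb
    set R2 : Set E := {y | D / 8 ≤ ‖x - y‖} with hR2
    have hR2m : MeasurableSet R2 := by
      exact measurableSet_le measurable_const ((measurable_const.sub measurable_id).norm)
    set fc : E → ℝ := fun y => 1 / (4 * τ) * R2.indicator (fun y => U (mu l) (z l) y ^ 2) y with hfc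
    have hmaj : ∀ y, (SS R p (z 1) ρ).indicator (fun y => U (mu 0) (z 0) y * U (mu l) (z l) y) y ≤
        fa y + (fb y + fc y) := by
      intro y
      have u0 := JJb_U_nonneg (mu 0) (z 0) y
      have ul := JJb_U_nonneg (mu l) (z l) y
      have ha : 0 ≤ fa y := by
        rw [hfa]
        exact mul_nonneg (by positivity) (indicator_nonneg (fun _ _ => JJb_U_nonneg _ _ _) y)
      have hb : 0 ≤ fb y := by rw [hfb]; positivity
      have hcc : 0 ≤ fc y := by
        rw [hfc]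
        exact mul_nonneg (by positivity) (indicator_nonneg (fun _ _ => sq_nonneg _) y)
      by_cases hy : y ∈ SS R p (z 1) ρ
      · rw [indicator_of_mem hy]
        have hyb : y ∈ (ball (z 1) ρ)ᶜ := hy.2
        by_cases hyD : ‖y - z 1‖ ≤ D / 4
        · obtain ⟨_, h2⟩ := FE1b_U0 hm0 (z 0) (z 1) y (by rw [← hDdef]; exact hyD)
          have h3 : fa y = 4 * t * U (mu l) (z l) y := by
            rw [hfa]
            show 4 * t * (ball (z 1) ρ)ᶜ.indicator (U (mu l) (z l)) y = _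
            rw [indicator_of_mem hyb]
          have h4 : U (mu 0) (z 0) y * U (mu l) (z l) y ≤ 4 * t * U (mu l) (z l) y :=
            mul_le_mul_of_nonneg_right h2 ul
          rw [h3] at ha ⊢
          linarith
        · have hyR : y ∈ R2 := by
            show D / 8 ≤ ‖x - y‖
            have : ‖y - z 1‖ ≤ ‖x - y‖ + ‖x - z 1‖ := by
              have h : y - z 1 = (x - z 1) - (x - y) := by abel
              rw [h]
              linarith [norm_sub_le (x - z 1) (x - y)]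
            linarith
          have h3 : fc y = 1 / (4 * τ) * U (mu l) (z l) y ^ 2 := by
            rw [hfc]
            show 1 / (4 * τ) * R2.indicator (fun y => U (mu l) (z l) y ^ 2) y = _
            rw [indicator_of_mem hyR]
          have h4 : U (mu 0) (z 0) y * U (mu l) (z l) y ≤ fb y + fc y := by
            rw [h3, hfb]
            show U (mu 0) (z 0) y * U (mu l) (z l) y ≤
              τ * U (mu 0) (z 0) y ^ 2 + 1 / (4 * τ) * U (mu l) (z l) y ^ 2
            have h5 : τ * U (mu 0) (z 0) y ^ 2 + 1 / (4 * τ) * U (mu l) (z l) y ^ 2 -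
                U (mu 0) (z 0) y * U (mu l) (z l) y =
                (2 * τ * U (mu 0) (z 0) y - U (mu l) (z l) y) ^ 2 / (4 * τ) := by
              field_simp
              ring
            have h6 : 0 ≤ (2 * τ * U (mu 0) (z 0) y - U (mu l) (z l) y) ^ 2 / (4 * τ) := by
              positivity
            linarith
          linarith
      · rw [indicator_of_notMem hy]
        linarith
    have hUm : ∀ l, Measurable (U (mu l) (z l)) := fun l => JJb_meas_U _ _
    have hmc : Measurable fc := by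
      rw [hfc]
      exact (((hUm l).pow_const 2).indicator hR2m).const_mul _
    have hmb : Measurable fb := by
      rw [hfb]
      exact ((hUm 0).pow_const 2).const_mul _
    have hsplit : ∀ m : ℕ,
        J m ((SS R p (z 1) ρ).indicator (fun y => U (mu 0) (z 0) y * U (mu l) (z l) y)) x ≤
          J m fa x + (J m fb x + J m fc x) := by
      intro m
      refine (J_mono hmaj x).trans ?_
      refine (J_add_le fa (fun y => fb y + fc y) (hmb.add hmc) x).trans ?_
      exact add_le_add_right (J_add_le fb fc hmc x) _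
    have hfar : ∀ m : ℕ, J m fc x ≤
        ENNReal.ofReal (1 / (4 * τ) * (c * mu l ^ 2 / (D / 8) ^ m)) := by
      intro m
      rw [hfc, J_const_mul _ (by positivity), ENNReal.ofReal_mul (by positivity)]
      refine mul_le_mul_right ?_ _
      refine J_far (fun y => U (mu l) (z l) y ^ 2) (fun y => sq_nonneg _) R2 hR2m x (D / 8)
        (c * mu l ^ 2) (by positivity) (by positivity) (fun y hy => hy) ?_
      exact (setLIntegral_le_lintegral _ _).trans (hint (mu l) (z l) hml)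
    have hfa4 : J 4 fa x ≤ ENNReal.ofReal (4 * t * (C1 * (mu l ^ 2 / ρ ^ 2))) := by
      rw [hfa, J_const_mul _ (by positivity)]
      refine (mul_le_mul_right o4 _).trans ?_
      rw [← ENNReal.ofReal_mul (by positivity)]
    have hfa5 : J 5 fa x ≤ ENNReal.ofReal (4 * t * (C1 * (mu l ^ 2 / ρ ^ 3))) := by
      rw [hfa, J_const_mul _ (by positivity)]
      refine (mul_le_mul_right o5 _).trans ?_
      rw [← ENNReal.ofReal_mul (by positivity)]
    have hfb4 : J 4 fb x ≤ ENNReal.ofReal (τ * (C2 * U (mu 0) (z 0) x)) := by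
      rw [hfb, J_const_mul _ hτ.le, ENNReal.ofReal_mul hτ.le]
      exact mul_le_mul_right s4 _
    have hfb5 : J 5 fb x ≤ ENNReal.ofReal (τ * (C2 * U (mu 0) (z 0) x / √(A (mu 0) (z 0) x))) := by
      rw [hfb, J_const_mul _ hτ.le, ENNReal.ofReal_mul hτ.le]
      exact mul_le_mul_right s5 _
    have hU0n := JJb_U_nonneg (mu 0) (z 0) x
    have hAx : 0 < √(A (mu 0) (z 0) x) := by linarith
    -- numerical bounds
    have n1 : mu l ^ 2 / ρ ^ 2 ≤ τ := by
      rw [div_le_iff₀ (by positivity)]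
      have := hr.q5
      have h1 : τ ^ 2 * ρ ^ 2 ≤ τ * ρ ^ 2 := by
        refine mul_le_mul_of_nonneg_right ?_ (by positivity)
        nlinarith
      linarith
    have n2 : mu l ^ 2 / ρ ^ 3 ≤ τ / D := by
      rw [div_le_div_iff₀ (by positivity) hD0]
      have := hr.q6
      rw [← hD] at this
      nlinarith
    have n3 : 1 / (4 * τ) * (c * mu l ^ 2 / (D / 8) ^ 4) ≤ 8 ^ 4 * c * (τ * t) := by
      have h1 : 1 / (4 * τ) * (c * mu l ^ 2 / (D / 8) ^ 4) =
          8 ^ 4 * c * (mu l ^ 2 / (4 * τ * D ^ 4)) := by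
        field_simp
      rw [h1]
      refine mul_le_mul_of_nonneg_left ?_ (by positivity)
      rw [htD, ← mul_div_assoc, div_le_div_iff₀ (by positivity) (by positivity)]
      have h2 : 0 ≤ τ ^ 2 * mu 0 ^ 2 * D ^ 4 := by positivity
      nlinarith [mul_le_mul_of_nonneg_right hmul0 (by positivity : (0 : ℝ) ≤ D ^ 4)]
    have n4 : 1 / (4 * τ) * (c * mu l ^ 2 / (D / 8) ^ 5) ≤ 8 ^ 5 * c * (τ * t / D) := by
      have h1 : 1 / (4 * τ) * (c * mu l ^ 2 / (D / 8) ^ 5) =
          8 / D * (1 / (4 * τ) * (c * mu l ^ 2 / (D / 8) ^ 4)) := by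
        field_simp
      rw [h1]
      calc 8 / D * (1 / (4 * τ) * (c * mu l ^ 2 / (D / 8) ^ 4)) ≤ 8 / D * (8 ^ 4 * c * (τ * t)) :=
            mul_le_mul_of_nonneg_left n3 (by positivity)
        _ = 8 ^ 5 * c * (τ * t / D) := by ring
    constructor
    · refine (hsplit 4).trans ?_
      refine (add_le_add hfa4 (add_le_add hfb4 (hfar 4))).trans ?_
      rw [← ENNReal.ofReal_add (by positivity) (by positivity),
        ← ENNReal.ofReal_add (by positivity) (by positivity)]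
      refine ENNReal.ofReal_le_ofReal ?_
      have h1 : 4 * t * (C1 * (mu l ^ 2 / ρ ^ 2)) ≤ 4 * C1 * (τ * t) := by
        have := mul_le_mul_of_nonneg_left n1 (by positivity : (0 : ℝ) ≤ 4 * t * C1)
        linarith
      have h2 : τ * (C2 * U (mu 0) (z 0) x) ≤ 4 * C2 * (τ * t) := by
        have := mul_le_mul_of_nonneg_left hU0x' (by positivity : (0 : ℝ) ≤ τ * C2)
        linarith
      have h3 : 8 ^ 4 * c * (τ * t) ≤ 8 ^ 5 * c * (τ * t) := by
        have : 0 ≤ c * (τ * t) := by positivity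
        nlinarith
      have h4 : 0 ≤ C2 * (τ * t) := by positivity
      rw [hB]
      nlinarith
    · refine (hsplit 5).trans ?_
      refine (add_le_add hfa5 (add_le_add hfb5 (hfar 5))).trans ?_
      rw [← ENNReal.ofReal_add (by positivity) (by positivity),
        ← ENNReal.ofReal_add (by positivity) (by positivity)]
      refine ENNReal.ofReal_le_ofReal ?_
      have h1 : 4 * t * (C1 * (mu l ^ 2 / ρ ^ 3)) ≤ 4 * C1 * (τ * t / D) := by
        have := mul_le_mul_of_nonneg_left n2 (by positivity : (0 : ℝ) ≤ 4 * t * C1)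
        calc 4 * t * (C1 * (mu l ^ 2 / ρ ^ 3)) = 4 * t * C1 * (mu l ^ 2 / ρ ^ 3) := by ring
          _ ≤ 4 * t * C1 * (τ / D) := this
          _ = _ := by ring
      have h2 : τ * (C2 * U (mu 0) (z 0) x / √(A (mu 0) (z 0) x)) ≤ 8 * C2 * (τ * t / D) := by
        have h5 : C2 * U (mu 0) (z 0) x / √(A (mu 0) (z 0) x) ≤ C2 * (4 * t) / (3 / 4 * D) := by
          refine div_le_div₀ (by positivity) ?_ (by positivity) hA0x
          exact mul_le_mul_of_nonneg_left hU0x' hC2.le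
        calc τ * (C2 * U (mu 0) (z 0) x / √(A (mu 0) (z 0) x)) ≤
              τ * (C2 * (4 * t) / (3 / 4 * D)) := mul_le_mul_of_nonneg_left h5 hτ.le
          _ = 16 / 3 * C2 * (τ * t / D) := by field_simp; ring
          _ ≤ _ := by
            have : 0 ≤ C2 * (τ * t / D) := by positivity
            nlinarith
      have h3 : B * τ * t / D = 4 * C1 * (τ * t / D) + (8 * C2 * (τ * t / D) +
          8 ^ 5 * c * (τ * t / D)) := by
        rw [hB]; ring
      rw [h3]
      linarith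
  -- sum
  have hind : ∀ y, (SS R p (z 1) ρ).indicator (fun y =>
      U (mu 0) (z 0) y * ∑ l ∈ Finset.Ico 1 k, U (mu l) (z l) y) y =
      ∑ l ∈ Finset.Ico 1 k, (SS R p (z 1) ρ).indicator
        (fun y => U (mu 0) (z 0) y * U (mu l) (z l) y) y := by
    intro y
    by_cases hy : y ∈ SS R p (z 1) ρ
    · simp only [indicator_of_mem hy, Finset.mul_sum]
    · simp only [indicator_of_notMem hy, Finset.sum_const_zero]
  have hSm : MeasurableSet (SS R p (z 1) ρ) := by
    unfold SS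
    exact measurableSet_ball.diff measurableSet_ball
  have hmeas : ∀ l ∈ Finset.Ico 1 k, Measurable ((SS R p (z 1) ρ).indicator
      (fun y => U (mu 0) (z 0) y * U (mu l) (z l) y)) := fun l _ =>
    ((JJb_meas_U _ _).mul (JJb_meas_U _ _)).indicator hSm
  have hcard : ((Finset.Ico 1 k).card : ℝ) ≤ k + 1 := by
    rw [Nat.card_Ico]
    have : ((k - 1 : ℕ) : ℝ) ≤ (k : ℝ) := by exact_mod_cast Nat.sub_le k 1
    linarith
  have fin : ∀ (m : ℕ) (X : ℝ), 0 ≤ X → (∀ l ∈ Finset.Ico 1 k,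
      J m ((SS R p (z 1) ρ).indicator (fun y => U (mu 0) (z 0) y * U (mu l) (z l) y)) x
        ≤ ENNReal.ofReal X) →
      J m ((SS R p (z 1) ρ).indicator (fun y =>
            U (mu 0) (z 0) y * ∑ l ∈ Finset.Ico 1 k, U (mu l) (z l) y)) x
        ≤ ENNReal.ofReal ((k + 1) * X) := by
    intro m X hX h
    refine (J_mono (fun y => (hind y).le) x).trans ?_
    refine (FE1b_J_sum _ _ hmeas x).trans ?_
    refine (Finset.sum_le_sum h).trans ?_
    rw [Finset.sum_const, nsmul_eq_mul, ← ENNReal.ofReal_natCast,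
      ← ENNReal.ofReal_mul (by positivity)]
    exact ENNReal.ofReal_le_ofReal (mul_le_mul_of_nonneg_right hcard hX)
  constructor
  · refine (fin 4 (B * τ * t) (by positivity) fun l hl => (key l hl).1).trans ?_
    exact ENNReal.ofReal_le_ofReal (by apply le_of_eq; ring)
  · refine (fin 5 (B * τ * t / D) (by positivity) fun l hl => (key l hl).2).trans ?_
    exact ENNReal.ofReal_le_ofReal (by apply le_of_eq; ring)

end Pool.Helper4.BT
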